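import Pool.Agent.H.MP_c1fc37_lc.B
set_option linter.style.longLine false
namespace Pool.Agent.Results.MP_c1fc37_lc.No
open Set Cardinal Order Pool.Agent.H.MP_c1fc37_lc Pool.Agent.Lib.helper21.NS

theorem result (l : Cardinal.{0}) (hl : ℵ₀ ≤ l) [NoMaxOrder (succ l).ord.ToType]
    (P : Set (Set (Nd (succ l).ord.ToType))) (h : TF P) : ¬ (Clo P ∧ Bnd P ∧ CC P) := fun ⟨c, b, a⟩ =>
  main (reg_of_isRegular (isRegular_succ hl) (lt_succ_of_le hl)) hl (mk_ord_toType _) h c b a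

end Pool.Agent.Results.MP_c1fc37_lc.No
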